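import Pool.Agent.Helper63.XP.StB
import Pool.Agent.Helper43.XR.M_NRM

/-!
# Project XP, module MLX: `th` is approximately multiplicative for the `l^p` operator norm
-/

set_option autoImplicit false

namespace Pool.Agent.Helper18.XP

open Pool.Agent.Helper63.XP Filter Topology
open Pool.Agent.Helper63.XR (FS th tw cmp rec)
open Pool.Agent.Helper43.XR (rr rr_coe dvd_iff_rr ev_rec key_rr)

theorem np_nonneg_MLX {J : Type} [Fintype J] (p : ℝ) (f : J → ℂ) : 0 ≤ np p f :=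
  Finset.sum_nonneg fun _ _ => Real.rpow_nonneg (norm_nonneg _) _

/-- Minkowski -/
theorem opLe_add_MLX {m n : Type} [Fintype m] [Fintype n] (p : ℝ) (hp : 1 ≤ p)
    (A B : Matrix m n ℂ) (a b : ℝ) (ha : 0 ≤ a) (hb : 0 ≤ b) (hA : OpLe p A a) (hB : OpLe p B b) :
    OpLe p (A + B) (a + b) := by
  intro v
  have hp0 : 0 < p := by linarith
  set N : ℝ := np p v with hN
  have hN0 : 0 ≤ N := np_nonneg_MLX p v
  have h1 : np p ((A + B).mulVec v) ≤
      ∑ i, |‖A.mulVec v i‖ + ‖B.mulVec v i‖| ^ p := by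
    refine Finset.sum_le_sum fun i _ => ?_
    refine Real.rpow_le_rpow (norm_nonneg _) ?_ hp0.le
    rw [Matrix.add_mulVec, Pi.add_apply]
    exact (norm_add_le _ _).trans (le_abs_self _)
  have h2 := Real.Lp_add_le Finset.univ (fun i => ‖A.mulVec v i‖) (fun i => ‖B.mulVec v i‖) hp
  have h3 : (∑ i, |‖A.mulVec v i‖| ^ p) ^ (1 / p) ≤ a * N ^ (1 / p) := by
    have h4 : ∑ i, |‖A.mulVec v i‖| ^ p = np p (A.mulVec v) := by
      refine Finset.sum_congr rfl fun i _ => ?_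
      rw [abs_norm]
    rw [h4]
    refine (Real.rpow_le_rpow (np_nonneg_MLX _ _) (hA v) (by positivity)).trans ?_
    rw [Real.mul_rpow (Real.rpow_nonneg ha _) hN0, ← Real.rpow_mul ha, mul_one_div_cancel hp0.ne',
      Real.rpow_one]
  have h5 : (∑ i, |‖B.mulVec v i‖| ^ p) ^ (1 / p) ≤ b * N ^ (1 / p) := by
    have h4 : ∑ i, |‖B.mulVec v i‖| ^ p = np p (B.mulVec v) := by
      refine Finset.sum_congr rfl fun i _ => ?_
      rw [abs_norm]
    rw [h4]
    refine (Real.rpow_le_rpow (np_nonneg_MLX _ _) (hB v) (by positivity)).trans ?_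
    rw [Real.mul_rpow (Real.rpow_nonneg hb _) hN0, ← Real.rpow_mul hb, mul_one_div_cancel hp0.ne',
      Real.rpow_one]
  have h6 : (∑ i, |‖A.mulVec v i‖ + ‖B.mulVec v i‖| ^ p) ^ (1 / p) ≤ (a + b) * N ^ (1 / p) := by
    refine h2.trans ?_
    rw [add_mul]
    exact add_le_add h3 h5
  have h7 : 0 ≤ ∑ i, |‖A.mulVec v i‖ + ‖B.mulVec v i‖| ^ p :=
    Finset.sum_nonneg fun _ _ => Real.rpow_nonneg (abs_nonneg _) _
  have h8 := Real.rpow_le_rpow (Real.rpow_nonneg h7 _) h6 hp0.le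
  rw [← Real.rpow_mul h7, one_div_mul_cancel hp0.ne', Real.rpow_one,
    Real.mul_rpow (add_nonneg ha hb) (Real.rpow_nonneg hN0 _), ← Real.rpow_mul hN0,
    one_div_mul_cancel hp0.ne', Real.rpow_one] at h8
  exact h1.trans h8

theorem opLe_zero_MLX {m n : Type} [Fintype m] [Fintype n] (p : ℝ) (hp : 1 ≤ p) :
    OpLe p (0 : Matrix m n ℂ) 0 := by
  intro v
  have hp0 : p ≠ 0 := by linarith
  rw [Real.zero_rpow hp0, zero_mul, Matrix.zero_mulVec]
  unfold np
  simp [Real.zero_rpow hp0]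

theorem opLe_sum_MLX {κ m n : Type} [Fintype m] [Fintype n] (p : ℝ) (hp : 1 ≤ p) (S : Finset κ)
    (A : κ → Matrix m n ℂ) (a : κ → ℝ) (ha : ∀ s ∈ S, 0 ≤ a s) (hA : ∀ s ∈ S, OpLe p (A s) (a s)) :
    OpLe p (∑ s ∈ S, A s) (∑ s ∈ S, a s) := by
  classical
  induction S using Finset.induction_on with
  | empty =>
    rw [Finset.sum_empty, Finset.sum_empty]
    exact opLe_zero_MLX p hp
  | insert s S hs ih =>
    rw [Finset.sum_insert hs, Finset.sum_insert hs]
    exact opLe_add_MLX p hp _ _ _ _ (ha s (Finset.mem_insert_self s S))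
      (Finset.sum_nonneg fun x hx => ha x (Finset.mem_insert_of_mem hx))
      (hA s (Finset.mem_insert_self s S))
      (ih (fun x hx => ha x (Finset.mem_insert_of_mem hx))
        fun x hx => hA x (Finset.mem_insert_of_mem hx))

theorem opLe_mono_MLX {m n : Type} [Fintype m] [Fintype n] (p : ℝ) (hp : 1 ≤ p)
    (A : Matrix m n ℂ) (a b : ℝ) (ha : 0 ≤ a) (hab : a ≤ b) (hA : OpLe p A a) : OpLe p A b := by
  intro v
  refine (hA v).trans (mul_le_mul_of_nonneg_right ?_ (np_nonneg_MLX p v))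
  exact Real.rpow_le_rpow ha hab (by linarith)

variable {X : Type} [TopologicalSpace X]

private theorem th_single_MLX (h : X ≃ₜ X) (t : X) (M : ℕ) (n : ℤ) (f : C(X, ℂ)) (i j : Fin M) :
    th h t M (Finsupp.single n f) i j =
      if ((M : ℤ) ∣ n + ((j : ℕ) : ℤ) - ((i : ℕ) : ℤ)) then f ((h ^ ((i : ℕ) : ℤ) : X ≃ₜ X) t) else 0 := by
  unfold th
  rw [Finsupp.sum_single_index]
  simp

private noncomputable def thH_MLX (h : X ≃ₜ X) (t : X) (M : ℕ) : FS X →+ Matrix (Fin M) (Fin M) ℂ where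
  toFun := th h t M
  map_zero' := by
    ext i j
    simp [th]
  map_add' := fun g g' => by
    ext i j
    rw [Matrix.add_apply]
    unfold th
    rw [Finsupp.sum_add_index']
    · intro n
      simp
    · intro n f f'
      split
      · simp
      · simp

private theorem thH_apply_MLX (h : X ≃ₜ X) (t : X) (M : ℕ) (g : FS X) : thH_MLX h t M g = th h t M g := rfl

/-- A matrix whose row `i` has at most one nonzero entry, in the column `rr (i - q)`. -/
theorem opLe_perm_MLX (p : ℝ) (hp : 1 ≤ p) (M : ℕ) (hM : 0 < M) (q : ℤ) (η : ℝ) (hη : 0 ≤ η)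
    (A : Matrix (Fin M) (Fin M) ℂ)
    (hA : ∀ i j : Fin M, ‖A i j‖ ≤ if ((M : ℤ) ∣ (q + ((j : ℕ) : ℤ)) - ((i : ℕ) : ℤ)) then η else 0) :
    OpLe p A η := by
  intro v
  have hp0 : 0 < p := by linarith
  let σ : Fin M → Fin M := fun i => rr M hM (((i : ℕ) : ℤ) - q)
  have hσ : ∀ i j : Fin M, ((M : ℤ) ∣ (q + ((j : ℕ) : ℤ)) - ((i : ℕ) : ℤ)) ↔ j = σ i := by
    intro i j
    rw [← dvd_iff_rr M hM]
    have h4 : ((i : ℕ) : ℤ) - q - ((j : ℕ) : ℤ) = -(q + ((j : ℕ) : ℤ) - ((i : ℕ) : ℤ)) := by ring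
    rw [h4, dvd_neg]
  have hinj : Function.Injective σ := by
    intro i i' hii
    have h1 := (hσ i (σ i)).2 rfl
    have h2 := (hσ i' (σ i)).2 hii
    have h3 : (M : ℤ) ∣ ((i : ℕ) : ℤ) - ((i' : ℕ) : ℤ) := by
      have h4 := dvd_sub h2 h1
      have h5 : (q + (((σ i : Fin M) : ℕ) : ℤ)) - ((i' : ℕ) : ℤ) -
          ((q + (((σ i : Fin M) : ℕ) : ℤ)) - ((i : ℕ) : ℤ)) = ((i : ℕ) : ℤ) - ((i' : ℕ) : ℤ) := by ring
      rwa [h5] at h4
    have h6 := (dvd_iff_rr M hM ((i : ℕ) : ℤ) i').1 h3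
    have h7 := (dvd_iff_rr M hM ((i : ℕ) : ℤ) i).1 (by rw [sub_self]; exact dvd_zero _)
    rw [h6, ← h7]
  have hrow : ∀ i, ‖A.mulVec v i‖ ≤ η * ‖v (σ i)‖ := by
    intro i
    have h1 : A.mulVec v i = A i (σ i) * v (σ i) := by
      unfold Matrix.mulVec dotProduct
      rw [Finset.sum_eq_single (σ i)]
      · intro j _ hj
        have h2 := hA i j
        rw [if_neg (fun h => hj ((hσ i j).1 h))] at h2
        show A i j * v j = 0
        rw [norm_le_zero_iff.1 h2, zero_mul]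
      · intro h
        exact absurd (Finset.mem_univ _) h
    rw [h1, norm_mul]
    refine mul_le_mul_of_nonneg_right ?_ (norm_nonneg _)
    have h2 := hA i (σ i)
    rwa [if_pos ((hσ i (σ i)).2 rfl)] at h2
  calc np p (A.mulVec v) ≤ ∑ i, η ^ p * ‖v (σ i)‖ ^ p := by
        refine Finset.sum_le_sum fun i _ => ?_
        rw [← Real.mul_rpow hη (norm_nonneg _)]
        exact Real.rpow_le_rpow (norm_nonneg _) (hrow i) hp0.le
    _ = η ^ p * ∑ i, ‖v (σ i)‖ ^ p := by rw [Finset.mul_sum]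
    _ = η ^ p * np p v := by
        congr 1
        exact Function.Bijective.sum_comp (Finite.injective_iff_bijective.1 hinj)
          (fun j => ‖v j‖ ^ p)

private theorem single_MLX [CompactSpace X] (h : X ≃ₜ X) (t : X) (m n : ℤ) (f f' : C(X, ℂ)) (δ : ℝ) (hδ : 0 < δ)
    (M : ℕ) (hLM : m.natAbs < M) (H : ∀ p : ℤ, -(m.natAbs : ℤ) ≤ p → p ≤ m.natAbs →
      ‖f' ((h ^ (p + M) : X ≃ₜ X) t) - f' ((h ^ p : X ≃ₜ X) t)‖ ≤ δ) (i j : Fin M) :
    ‖(th h t M (Finsupp.single (m + n) (f * cmp h (-m) f')) -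
      th h t M (Finsupp.single m f) * th h t M (Finsupp.single n f')) i j‖ ≤
      if ((M : ℤ) ∣ (m + n + ((j : ℕ) : ℤ)) - ((i : ℕ) : ℤ)) then ‖f‖ * δ else 0 := by
  have hM0 : 0 < M := by omega
  rw [Matrix.sub_apply, Matrix.mul_apply, th_single_MLX]
  have h2 : ∀ l : Fin M, th h t M (Finsupp.single m f) i l * th h t M (Finsupp.single n f') l j =
      if l = rr M hM0 (((i : ℕ) : ℤ) - m) then f ((h ^ ((i : ℕ) : ℤ) : X ≃ₜ X) t) *
        th h t M (Finsupp.single n f') l j else 0 := by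
    intro l
    rw [th_single_MLX h t M m f i l]
    have h3 : ((M : ℤ) ∣ m + ((l : ℕ) : ℤ) - ((i : ℕ) : ℤ)) ↔ l = rr M hM0 (((i : ℕ) : ℤ) - m) := by
      rw [← dvd_iff_rr M hM0]
      have h4 : ((i : ℕ) : ℤ) - m - ((l : ℕ) : ℤ) = -(m + ((l : ℕ) : ℤ) - ((i : ℕ) : ℤ)) := by ring
      rw [h4, dvd_neg]
    simp only [h3, ite_mul, zero_mul]
  simp only [h2]
  rw [Finset.sum_ite_eq' Finset.univ (rr M hM0 (((i : ℕ) : ℤ) - m)), if_pos (Finset.mem_univ _),
    th_single_MLX, rr_coe]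
  have h5 : ((M : ℤ) ∣ n + ((j : ℕ) : ℤ) - (((i : ℕ) : ℤ) - m) % M) ↔
      ((M : ℤ) ∣ (m + n + ((j : ℕ) : ℤ)) - ((i : ℕ) : ℤ)) := by
    have h6 := Int.emod_add_mul_ediv (((i : ℕ) : ℤ) - m) M
    have h7 : n + ((j : ℕ) : ℤ) - (((i : ℕ) : ℤ) - m) % M =
        (m + n + ((j : ℕ) : ℤ)) - ((i : ℕ) : ℤ) + M * ((((i : ℕ) : ℤ) - m) / M) := by linarith
    rw [h7]
    exact (dvd_add_left (Dvd.intro _ rfl))
  simp only [h5]
  by_cases hc : ((M : ℤ) ∣ (m + n + ((j : ℕ) : ℤ)) - ((i : ℕ) : ℤ))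
  · simp only [if_pos hc]
    rw [ContinuousMap.mul_apply, ← mul_sub, norm_mul]
    have hi : ((i : ℕ) : ℤ) < M := by exact_mod_cast i.2
    have hi0 : (0 : ℤ) ≤ ((i : ℕ) : ℤ) := Int.natCast_nonneg _
    have hn1 : -(m.natAbs : ℤ) ≤ m := by omega
    have hn2 : m ≤ m.natAbs := by omega
    have h8 := key_rr h t f' m.natAbs δ hδ M hLM H (((i : ℕ) : ℤ) - m) (by linarith) (by linarith)
    have h9 : (cmp h (-m) f') ((h ^ ((i : ℕ) : ℤ) : X ≃ₜ X) t) = f' ((h ^ (((i : ℕ) : ℤ) - m) : X ≃ₜ X) t) := by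
      change f' ((h ^ (-m) : X ≃ₜ X) ((h ^ ((i : ℕ) : ℤ) : X ≃ₜ X) t)) = _
      rw [← Homeomorph.mul_apply, ← zpow_add]
      congr 2
      ring_nf
    rw [h9, norm_sub_rev]
    exact mul_le_mul (ContinuousMap.norm_coe_le_norm f _) h8 (norm_nonneg _) (norm_nonneg _)
  · simp only [if_neg hc]
    simp

theorem hMLX : StMlx := by
  intro p X _ _ h t g g' ε hp hε
  set C : ℝ := ∑ m ∈ g.support, ∑ _n ∈ g'.support, ‖g m‖ with hC
  have hC0 : 0 ≤ C := Finset.sum_nonneg fun _ _ => Finset.sum_nonneg fun _ _ => norm_nonneg _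
  set δ : ℝ := ε / (C + 1) with hδdef
  have hδ : 0 < δ := by positivity
  have hev : ∀ᶠ M : ℕ in rec h t, ∀ m ∈ g.support, ∀ n ∈ g'.support, m.natAbs < M ∧
      ∀ p : ℤ, -(m.natAbs : ℤ) ≤ p → p ≤ m.natAbs →
      ‖(g' n) ((h ^ (p + M) : X ≃ₜ X) t) - (g' n) ((h ^ p : X ≃ₜ X) t)‖ ≤ δ := by
    rw [eventually_all_finset]
    intro m _
    rw [eventually_all_finset]
    intro n _
    exact ev_rec h t (g' n) m.natAbs δ hδ
  filter_upwards [hev] with M hM
  have e1 : th h t M (tw h g g') = ∑ m ∈ g.support, ∑ n ∈ g'.support,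
      th h t M (Finsupp.single (m + n) (g m * cmp h (-m) (g' n))) := by
    rw [← thH_apply_MLX]
    unfold tw Finsupp.sum
    rw [map_sum]
    apply Finset.sum_congr rfl
    intro m _
    rw [map_sum]
    rfl
  have e2 : ∀ g : FS X, th h t M g = ∑ m ∈ g.support, th h t M (Finsupp.single m (g m)) := by
    intro g
    conv_lhs => rw [← Finsupp.sum_single g, ← thH_apply_MLX]
    unfold Finsupp.sum
    rw [map_sum]
    rfl
  have e3 : th h t M (tw h g g') - th h t M g * th h t M g' = ∑ m ∈ g.support, ∑ n ∈ g'.support,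
      (th h t M (Finsupp.single (m + n) (g m * cmp h (-m) (g' n))) -
        th h t M (Finsupp.single m (g m)) * th h t M (Finsupp.single n (g' n))) := by
    rw [e1, e2 g, e2 g', Finset.sum_mul_sum, ← Finset.sum_sub_distrib]
    apply Finset.sum_congr rfl
    intro m _
    rw [← Finset.sum_sub_distrib]
  show OpLe p (th h t M (tw h g g') - th h t M g * th h t M g') ε
  rw [e3]
  have h1 := opLe_sum_MLX p hp g.support (fun m => ∑ n ∈ g'.support,
      (th h t M (Finsupp.single (m + n) (g m * cmp h (-m) (g' n))) -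
        th h t M (Finsupp.single m (g m)) * th h t M (Finsupp.single n (g' n))))
      (fun m => ∑ _n ∈ g'.support, ‖g m‖ * δ)
      (fun m _ => Finset.sum_nonneg fun _ _ => mul_nonneg (norm_nonneg _) hδ.le) (fun m hm => by
        apply opLe_sum_MLX p hp
        · intro n _
          exact mul_nonneg (norm_nonneg _) hδ.le
        · intro n hn
          obtain ⟨h2, h3⟩ := hM m hm n hn
          exact opLe_perm_MLX p hp M (by omega) (m + n) _ (mul_nonneg (norm_nonneg _) hδ.le) _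
            fun i j => single_MLX h t m n (g m) (g' n) δ hδ M h2 h3 i j)
  have h4 : ∑ m ∈ g.support, ∑ _n ∈ g'.support, ‖g m‖ * δ = C * δ := by
    rw [hC, Finset.sum_mul]
    apply Finset.sum_congr rfl
    intro m _
    rw [Finset.sum_mul]
  rw [h4] at h1
  refine opLe_mono_MLX p hp _ _ _ (mul_nonneg hC0 hδ.le) ?_ h1
  rw [hδdef, mul_div_assoc', div_le_iff₀ (by positivity)]
  nlinarith

end Pool.Agent.Helper18.XP
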